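import Mathlib
import Pool.Agent.Lib.MP_4c6e08_pr.Coupling
import Pool.Agent.Lib.MP_4c6e08_pr.Exist
import Pool.Agent.Lib.MP_4c6e08_pr.Lower

set_option autoImplicit false

/-!
# Disagreement bounds are closed under the pointwise minimum

This settles Q1 of MP_4c6e08_pr positively.
-/

namespace Pool.Agent.Results.MP_4c6e08_pr.MinClosed

open MeasureTheory

/-- The total variation distance of two laws on the real line: the supremum of
`|μ A - ν A|` over all measurable sets `A`. -/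
noncomputable def tv (μ ν : Measure ℝ) : ℝ :=
  sSup {r : ℝ | ∃ A : Set ℝ, MeasurableSet A ∧ r = |μ.real A - ν.real A|}

/-- `f` is a disagreement bound: it maps `[0,1]` to `[0,1]`, and for all laws `μ 0, …, μ (n-1)` of
real random variables there are random variables `X 0, …, X (n-1)` on one common probability space
such that `X i` has law `μ i` and `P (X i ≠ X j) ≤ f (tv (μ i) (μ j))` for all `i ≠ j`. -/
def IsDisagreementBound (f : ℝ → ℝ) : Prop :=
  (∀ x ∈ Set.Icc (0 : ℝ) 1, f x ∈ Set.Icc (0 : ℝ) 1) ∧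
  ∀ (n : ℕ) (μ : Fin n → Measure ℝ), (∀ i, IsProbabilityMeasure (μ i)) →
    ∃ (Ω : Type) (_ : MeasurableSpace Ω) (P : Measure Ω) (X : Fin n → Ω → ℝ),
      IsProbabilityMeasure P ∧ (∀ i, Measurable (X i)) ∧ (∀ i, P.map (X i) = μ i) ∧
      ∀ i j, i ≠ j → P.real {ω | X i ω ≠ X j ω} ≤ f (tv (μ i) (μ j))

open Pool.Agent.Lib.MP_4c6e08_pr

lemma tv_bdd (μ ν : Measure ℝ) [IsProbabilityMeasure μ] [IsProbabilityMeasure ν] :
    BddAbove {r : ℝ | ∃ A : Set ℝ, MeasurableSet A ∧ r = |μ.real A - ν.real A|} ∧ tv μ ν ≤ 1 := by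
  have h : ∀ r ∈ {r : ℝ | ∃ A : Set ℝ, MeasurableSet A ∧ r = |μ.real A - ν.real A|}, r ≤ 1 := by
    rintro r ⟨A, hA, rfl⟩
    have h1 : μ.real A ≤ 1 := measureReal_le_one
    have h2 : ν.real A ≤ 1 := measureReal_le_one
    have h3 : 0 ≤ μ.real A := measureReal_nonneg
    have h4 : 0 ≤ ν.real A := measureReal_nonneg
    rw [abs_le]
    constructor <;> linarith
  exact ⟨⟨1, h⟩, csSup_le ⟨_, ∅, MeasurableSet.empty, rfl⟩ h⟩

lemma tv_nonneg (μ ν : Measure ℝ) : 0 ≤ tv μ ν := by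
  apply Real.sSup_nonneg
  rintro r ⟨A, hA, rfl⟩
  exact abs_nonneg _

lemma sub_le_tv (μ ν : Measure ℝ) [IsProbabilityMeasure μ] [IsProbabilityMeasure ν] {A : Set ℝ}
    (hA : MeasurableSet A) : μ.real A - ν.real A ≤ tv μ ν :=
  (le_abs_self _).trans (le_csSup (tv_bdd μ ν).1 ⟨A, hA, rfl⟩)

/-- Every disagreement bound is at least one at one. -/
lemma one_le (f : ℝ → ℝ) (hf : IsDisagreementBound f) : 1 ≤ f 1 := by
  let m : Fin 2 → Fin 2 → ℝ := fun i j => if j = i then 1 else 0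
  let ι : Fin 2 → ℝ := fun j => ((j : ℕ) : ℝ)
  have hι : Function.Injective ι := by
    intro a b h
    have h' : ((a : ℕ) : ℝ) = ((b : ℕ) : ℝ) := h
    exact Fin.ext (by exact_mod_cast h')
  have hm : ∀ i j, 0 ≤ m i j := by
    intro i j
    simp only [m]
    split_ifs <;> norm_num
  have hm1 : ∀ i, ∑ j, m i j = 1 := by
    intro i
    simp [m]
  have hprob : ∀ i, IsProbabilityMeasure (atomic (m i) ι) := fun i =>
    atomic_isProb (m i) (hm i) (hm1 i) ι
  obtain ⟨Ω, mΩ, P, X, hP, hX, hlaw, hdis⟩ := hf.2 2 (fun i => atomic (m i) ι) hprob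
  have htv : tv (atomic (m 0) ι) (atomic (m 1) ι) = 1 := by
    rw [tv, atomic_tv (m 0) (m 1) (hm 0) (hm 1) (hm1 0) (hm1 1) ι hι]
    simp [m]
  have h1 := hdis 0 1 (by decide)
  rw [htv] at h1
  refine le_trans ?_ h1
  -- almost surely `X i` is `ι i`
  have has : ∀ i, P (X i ⁻¹' {ι i})ᶜ = 0 := by
    intro i
    have hA : MeasurableSet ({ι i} : Set ℝ) := measurableSet_singleton _
    have e1 : (P.map (X i)).real {ι i} = 1 := by
      rw [hlaw i, atomic_real (m i) (hm i), ← hm1 i]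
      apply Finset.sum_congr rfl
      intro j _
      by_cases hj : j = i
      · subst hj; simp
      · have : ¬ ι j ∈ ({ι i} : Set ℝ) := fun h => hj (hι h)
        rw [if_neg this]
        simp [m, hj]
    rw [map_measureReal_apply (hX i) hA] at e1
    have e2 : P.real (X i ⁻¹' {ι i})ᶜ = 0 := by
      rw [probReal_compl_eq_one_sub (hX i hA), e1, sub_self]
    rwa [measureReal_eq_zero_iff] at e2
  have h2 : ∀ᵐ ω ∂P, X 0 ω ≠ X 1 ω := by
    have a0 : ∀ᵐ ω ∂P, X 0 ω = ι 0 := has 0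
    have a1 : ∀ᵐ ω ∂P, X 1 ω = ι 1 := has 1
    filter_upwards [a0, a1] with ω h0 h1
    rw [h0, h1]
    intro h
    exact absurd (hι h) (by decide)
  have h3 : P.real {ω | X 0 ω ≠ X 1 ω} = 1 := by
    rw [measureReal_def]
    have : P {ω | X 0 ω ≠ X 1 ω} = 1 :=
      (mem_ae_iff_prob_eq_one (measurableSet_eq_fun (hX 0) (hX 1)).compl).1 h2
    rw [this]; simp
  rw [h3]

/-- **Every disagreement bound dominates `2x/(1+x)`.** -/
lemma lower_bound (f : ℝ → ℝ) (hf : IsDisagreementBound f) (x : ℝ) (hx : x ∈ Set.Icc (0 : ℝ) 1) :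
    2 * x / (1 + x) ≤ f x := by
  obtain ⟨hx0, hx1⟩ := hx
  rcases eq_or_lt_of_le hx0 with h0 | h0
  · rw [← h0]
    simpa using (hf.1 0 ⟨le_rfl, zero_le_one⟩).1
  rcases eq_or_lt_of_le hx1 with h1 | h1
  · rw [h1]
    have := one_le f hf
    norm_num
    exact this
  by_contra hcon
  push Not at hcon
  set y : ℝ := 1 - x with hy
  have hy0 : 0 < y := by linarith
  have hy1 : y < 1 := by linarith
  set c : ℝ := 1 - f x with hc
  have hfx := hf.1 x ⟨hx0, hx1⟩
  have hc1 : c ≤ 1 := by linarith [hfx.1]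
  have hyc : y / (2 - y) < c := by
    have e : y / (2 - y) = 1 - 2 * x / (1 + x) := by
      have h2 : (2 : ℝ) - y ≠ 0 := by linarith
      have h3 : (1 : ℝ) + x ≠ 0 := by linarith
      rw [hy] at h2 ⊢
      field_simp
      ring
    rw [e]
    linarith
  set g : ℝ := c - y / (2 - y) with hg
  have hg0 : 0 < g := by linarith
  have hg1 : g ≤ 1 := by
    have : 0 < y / (2 - y) := div_pos hy0 (by linarith)
    linarith
  -- parameters
  set δ : ℝ := g / 12 with hδ
  have hδ0 : 0 < δ := by positivity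
  have hδ1 : δ ≤ 1 := by linarith
  obtain ⟨J, hJ⟩ := exists_nat_gt (4 / g)
  have hJ0 : 0 < J := by
    have : (0 : ℝ) < J := lt_trans (by positivity) hJ
    exact_mod_cast this
  have hJ' : 1 / (J : ℝ) ≤ g / 4 := by
    have hJR : (0 : ℝ) < J := by exact_mod_cast hJ0
    rw [div_le_iff₀ hJR]
    rw [div_lt_iff₀ hg0] at hJ
    linarith
  obtain ⟨Q, hQ⟩ := exists_nat_gt (2 / g)
  obtain ⟨q, hfact, s, S, hQq, hys, hS, hcov⟩ := exists_good y δ hy0 hy1 hδ0 hδ1 J Q
  have hq0 : (0 : ℝ) < q := by exact_mod_cast hfact.out.pos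
  have hs0 : (0 : ℝ) < s := lt_of_lt_of_le (by positivity) hys
  set w : ℝ := y / s ^ 2 with hw
  have hw0 : 0 ≤ w := by positivity
  have hw1 : w * (q * s) ≤ 1 := by
    have : w * (q * s) = y * q / s := by
      rw [hw]
      field_simp
    rw [this, div_le_one hs0]
    exact hys
  have hws : w * s ^ 2 = y := by
    rw [hw]
    field_simp
  -- the laws
  let ι : (ZMod q × ZMod q) ⊕ ZMod q → ℝ := fun z =>
    ((Fintype.equivFin ((ZMod q × ZMod q) ⊕ ZMod q) z : ℕ) : ℝ)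
  have hι : Function.Injective ι := by
    intro a b h
    have h' : ((Fintype.equivFin ((ZMod q × ZMod q) ⊕ ZMod q) a : ℕ) : ℝ) =
      ((Fintype.equivFin ((ZMod q × ZMod q) ⊕ ZMod q) b : ℕ) : ℝ) := h
    have h'' : (Fintype.equivFin ((ZMod q × ZMod q) ⊕ ZMod q) a : ℕ) =
      (Fintype.equivFin ((ZMod q × ZMod q) ⊕ ZMod q) b : ℕ) := by exact_mod_cast h'
    exact (Fintype.equivFin _).injective (Fin.ext h'')
  let e : Fin q ≃ ZMod q := (Fintype.equivFinOfCardEq (ZMod.card q)).symm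
  have hm := fun t => mass_nonneg (S := S) hw0 hw1 t
  have hm1 := fun t => mass_sum (w := w) hS t
  have hprob : ∀ i : Fin q, IsProbabilityMeasure (atomic (mass w s S (e i)) ι) := fun i =>
    atomic_isProb _ (hm _) (hm1 _) ι
  obtain ⟨Ω, mΩ, P, X, hP, hX, hlaw, hdis⟩ :=
    hf.2 q (fun i => atomic (mass w s S (e i)) ι) hprob
  have htv : ∀ i j : Fin q, i ≠ j →
      tv (atomic (mass w s S (e i)) ι) (atomic (mass w s S (e j)) ι) = x := by
    intro i j hij
    rw [tv, atomic_tv _ _ (hm _) (hm _) (hm1 _) (hm1 _) ι hι,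
      mass_overlap hw0 hw1 hS (fun h => hij (e.injective h)), hws, hy]
    ring
  have key := coupling_bound ι hι y δ hy0 hy1 hδ0.le J hJ0 hw0 hw1 hS hcov P
    (fun t => X (e.symm t)) (fun t => hX _) (by
      intro t
      rw [hlaw (e.symm t), e.apply_symm_apply]) c (by
      intro t t' htt
      have h2 : e.symm t ≠ e.symm t' := fun h => htt (e.symm.injective h)
      have h3 := hdis _ _ h2
      rw [htv _ _ h2] at h3
      have h4 : {ω | X (e.symm t) ω ≠ X (e.symm t') ω} =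
        {ω | X (e.symm t) ω = X (e.symm t') ω}ᶜ := rfl
      rw [h4, probReal_compl_eq_one_sub (measurableSet_eq_fun (hX _) (hX _))] at h3
      linarith)
  -- conclusion
  have h2 : y / (2 - y) + 2 * δ + δ ^ 2 + 1 / J ≤ c - g / 2 := by
    have h3 : δ ^ 2 ≤ δ := by nlinarith
    have h4 : y / (2 - y) = c - g := by rw [hg]; ring
    rw [h4]
    linarith
  have h3 : (q : ℝ) * (q - 1) * c ≤ (c - g / 2) * (q : ℝ) ^ 2 :=
    key.trans (mul_le_mul_of_nonneg_right h2 (by positivity))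
  have h4 : (q : ℝ) * (g / 2) ≤ c := by
    have h5 : (q : ℝ) * ((q : ℝ) * (g / 2)) ≤ q * c := by nlinarith
    exact le_of_mul_le_mul_left h5 hq0
  have h5 : (2 / g : ℝ) < q := lt_of_lt_of_le hQ (by exact_mod_cast hQq)
  rw [div_lt_iff₀ hg0] at h5
  linarith

/-- **Disagreement bounds are closed under the pointwise minimum.** -/
theorem result (f₁ f₂ : ℝ → ℝ) (h₁ : IsDisagreementBound f₁) (h₂ : IsDisagreementBound f₂) :
    IsDisagreementBound (fun x => min (f₁ x) (f₂ x)) := by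
  refine ⟨?_, ?_⟩
  · intro x hx
    exact ⟨le_min (h₁.1 x hx).1 (h₂.1 x hx).1, (min_le_left _ _).trans (h₁.1 x hx).2⟩
  · intro n μ hμ
    obtain ⟨Ω, mΩ, P, X, hP, hX, hlaw, hdis⟩ := exists_coupling μ hμ
    refine ⟨Ω, mΩ, P, X, hP, hX, hlaw, ?_⟩
    intro i j _
    have ht : tv (μ i) (μ j) ∈ Set.Icc (0 : ℝ) 1 := ⟨tv_nonneg _ _, (tv_bdd _ _).2⟩
    refine (hdis i j (tv (μ i) (μ j)) ht.1 ht.2 (fun A hA => sub_le_tv _ _ hA)).trans ?_
    exact le_min (lower_bound f₁ h₁ _ ht) (lower_bound f₂ h₂ _ ht)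

end Pool.Agent.Results.MP_4c6e08_pr.MinClosed
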